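import Pool.Agent.H.MP_d93d44_co.A

namespace Pool.Agent.H.MP_8f05cb_co.A

open Matrix Finset Pool.Agent.H.MP_d93d44_co.A

variable {k : ℕ} (p q : Fin k → ℕ)

abbrev T := Σ z : Fin k, Option (Fin (p z) × Option (Fin (q z)))

abbrev V := Bool ⊕ T p q

def par : T p q → Option (T p q)
  | ⟨_, none⟩ => none
  | ⟨z, some (_, none)⟩ => some ⟨z, none⟩
  | ⟨z, some (c, some _)⟩ => some ⟨z, some (c, none)⟩

def R : V p q → V p q → Prop
  | .inl _, .inl _ => False
  | .inl _, .inr y => par p q y = none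
  | .inr _, .inl _ => False
  | .inr x, .inr y => par p q y = some x

def lev : V p q → ℕ
  | .inl _ => 0
  | .inr ⟨_, none⟩ => 1
  | .inr ⟨_, some (_, none)⟩ => 2
  | .inr ⟨_, some (_, some _)⟩ => 3

theorem lev_R : ∀ u v, R p q u v → lev p q v = lev p q u + 1 := by
  rintro (b | x) (b' | ⟨z', _ | ⟨c', _ | g'⟩⟩) h <;> simp only [R, par, Option.some.injEq,
    reduceCtorEq] at h <;> first | rfl | (subst h; rfl)

def G : SimpleGraph (V p q) where
  Adj u v := R p q u v ∨ R p q v u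
  symm := ⟨fun _ _ h => h.symm⟩
  loopless := ⟨fun u h => by have := lev_R p q u u (h.elim id id); omega⟩

theorem conn (hk : 0 < k) : (G p q).Connected := by
  have a : ∀ z b, (G p q).Adj (.inr ⟨z, none⟩) (.inl b) := fun z b => Or.inr rfl
  have key : ∀ u, (G p q).Reachable u (.inl false) := by
    have h2 : ∀ z c, (G p q).Reachable (.inr ⟨z, some (c, none)⟩) (.inl false) := fun z c =>
      (SimpleGraph.Adj.reachable (v := .inr ⟨z, none⟩) (Or.inr rfl)).trans (a z _).reachable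
    rintro (b | ⟨z, _ | ⟨c, _ | g⟩⟩)
    · exact (a ⟨0, hk⟩ b).symm.reachable.trans (a _ _).reachable
    · exact (a _ _).reachable
    · exact h2 z c
    · exact (SimpleGraph.Adj.reachable (v := .inr ⟨z, some (c, none)⟩) (Or.inr rfl)).trans (h2 z c)
  exact ⟨fun u v => (key u).trans (key v).symm⟩

theorem card_T : Fintype.card (T p q) = k + ∑ z, p z * (1 + q z) := by
  simp [sum_add_distrib, add_comm]

theorem edges : (G p q).edgeSet.ncard ≤ Fintype.card (T p q) + k := by
  classical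
  let f : T p q ⊕ Fin k → Sym2 (V p q) := Sum.elim
    (fun y => s((par p q y).elim (.inl false) .inr, .inr y)) fun z => s(.inl true, .inr ⟨z, none⟩)
  have h : ∀ u v, R p q u v → s(u, v) ∈ Set.range f := by
    rintro (b | x) (b' | y) h
    · exact h.elim
    · cases b
      · exact ⟨.inl y, by simp only [f, Sum.elim_inl]; rw [show par p q y = none from h]; rfl⟩
      · obtain ⟨z, _ | ⟨c, _ | g⟩⟩ := y
        · exact ⟨.inr z, rfl⟩
        · simp [R, par] at h
        · simp [R, par] at h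
    · exact h.elim
    · exact ⟨.inl y, by simp only [f, Sum.elim_inl]; rw [show par p q y = some x from h]; rfl⟩
  have : (G p q).edgeSet ⊆ f '' Set.univ := by
    rw [Set.image_univ]
    intro e he
    induction e using Sym2.ind with
    | h u v =>
      rcases he with a | a
      · exact h u v a
      · rw [Sym2.eq_swap]
        exact h v u a
  refine (Set.ncard_le_ncard this).trans ((Set.ncard_image_le).trans ?_)
  simp [Set.ncard_univ]

def wv (r : Bool → ℂ) (x : Fin k → ℂ) (y g : ℂ) : V p q → ℂ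
  | .inl b => r b
  | .inr ⟨z, none⟩ => x z
  | .inr ⟨_, some (_, none)⟩ => y
  | .inr ⟨_, some (_, some _)⟩ => g

open Classical in
theorem act (r : Bool → ℂ) (x : Fin k → ℂ) (y g : ℂ) (v : V p q) :
    ((G p q).adjMatrix ℂ *ᵥ wv p q r x y g) v = match v with
      | .inl _ => ∑ z, x z
      | .inr ⟨z, none⟩ => r true + r false + p z * y
      | .inr ⟨z, some (_, none)⟩ => x z + q z * g
      | .inr ⟨_, some (_, some _)⟩ => y := by
  simp only [mulVec, dotProduct, SimpleGraph.adjMatrix_apply, G, Fintype.sum_sum_type,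
    Fintype.sum_sigma, Fintype.sum_option, Fintype.sum_prod_type, Fintype.sum_bool]
  obtain (b | ⟨z, _ | ⟨c, _ | g⟩⟩) := v
  · simp [R, par, wv]
  · rw [sum_eq_single z] <;> simp +contextual [R, par, wv]
  · rw [sum_eq_single z] <;> simp +contextual [R, par, wv, eq_comm]
  · rw [sum_eq_single z] <;> simp +contextual [R, par, wv, eq_comm]

open Classical in
theorem pst (s a : ℕ) (ha : 0 < a) (hp : ∀ z, p z + q z = s) (hQ : ∑ z, q z = 2 * (2 * a + 1) ^ 2)
    (hs : s + 2 * k = 2 * (2 * a + 1) ^ 2 + 2) :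
    NormedSpace.exp ((((Real.pi / √2 : ℝ) : ℂ) * Complex.I) • (G p q).adjMatrix ℂ) *ᵥ
      Pi.single (.inl false) 1 = (-1 : ℂ) • Pi.single (.inl true) 1 := by
  set ρ : ℂ := ((√2 : ℝ) : ℂ) with hρ
  have r2 : ρ ^ 2 = 2 := by rw [hρ]; exact_mod_cast Real.sq_sqrt zero_le_two
  have r0 : ρ ≠ 0 := fun e => by simp [e] at r2
  set v : ℂ := 2 * a + 1 with hv
  have hQ' : ∑ z, (q z : ℂ) = 2 * v ^ 2 := by rw [hv]; exact_mod_cast hQ
  have hs' : (s : ℂ) = 2 * v ^ 2 + 2 - 2 * k := by
    rw [eq_sub_iff_add_eq, hv]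
    exact_mod_cast hs
  have v0 : v ≠ 0 := by rw [hv]; exact_mod_cast (by omega : 2 * a + 1 ≠ 0)
  have v1 : v ^ 2 - 1 ≠ 0 := by
    have : v ^ 2 - 1 = 4 * a * (a + 1 : ℕ) := by push_cast; ring
    rw [this]
    exact_mod_cast (by positivity : 4 * a * (a + 1) ≠ 0)
  let w : ℂ → V p q → ℂ := fun θ =>
    wv p q (fun _ => θ * (θ ^ 2 - s)) (fun z => 2 * (θ ^ 2 - q z)) (2 * θ) 2
  set M := (((Real.pi / √2 : ℝ) : ℂ) * Complex.I) • (G p q).adjMatrix ℂ with hM
  have ew : ∀ m : ℤ, ∀ j : ℂ, j = 2 * m + 1 → (j ^ 2 - 1) * (j ^ 2 - v ^ 2) = 0 →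
      NormedSpace.exp M *ᵥ w (j * ρ) = (-1 : ℂ) • w (j * ρ) := fun m j hj h => by
    rw [exp_eig M _ (m * (2 * Real.pi * Complex.I) + Real.pi * Complex.I), Complex.exp_add,
      Complex.exp_int_mul_two_pi_mul_I, Complex.exp_pi_mul_I, one_mul]
    have e : (m * (2 * Real.pi * Complex.I) + Real.pi * Complex.I : ℂ) =
        (((Real.pi / √2 : ℝ) : ℂ) * Complex.I) * (j * ρ) := by
      rw [Complex.ofReal_div, ← hρ, hj]
      field_simp
    rw [hM, smul_mulVec, e, mul_smul (_ * _)]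
    congr 1
    funext u
    rw [act]
    obtain (b | ⟨z, _ | ⟨c, _ | g⟩⟩) := u <;> simp only [w, wv, Pi.smul_apply, smul_eq_mul]
    · rw [← mul_sum, sum_sub_distrib, hQ', hs', sum_const, card_univ, Fintype.card_fin,
        nsmul_eq_mul]
      grind
    · have : (s : ℂ) = p z + q z := by exact_mod_cast (hp z).symm
      rw [this]
      ring
    · ring
    · ring
  have e0 : NormedSpace.exp M *ᵥ wv p q (fun b => if b then -1 else 1) 0 0 0 =
      wv p q (fun b => if b then -1 else 1) 0 0 0 := by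
    rw [exp_eig M _ 0, Complex.exp_zero, one_smul]
    rw [hM, smul_mulVec, zero_smul]
    refine smul_eq_zero_of_right _ (funext fun u => ?_)
    rw [act]
    obtain (b | ⟨z, _ | ⟨c, _ | g⟩⟩) := u <;> simp
  have e1 := ew 0 1 (by simp) (by simp)
  have e2 := ew (-1) (-1) (by norm_num) (by simp)
  have e3 := ew a v (by simp [hv]) (by simp)
  have e4 := ew (-a - 1) (-v) (by push_cast; ring) (by simp)
  have d : ∀ b : Bool, (Pi.single (.inl b) 1 : V p q → ℂ) =
      (if b then -1 / 2 else 1 / 2 : ℂ) • wv p q (fun b => if b then -1 else 1) 0 0 0 +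
      (8 * ρ * v * (v ^ 2 - 1))⁻¹ • (-v • w (1 * ρ) + v • w (-1 * ρ) + w (v * ρ) - w (-v * ρ)) := by
    intro b
    funext u
    obtain (b' | ⟨z, _ | ⟨c, _ | g⟩⟩) := u
    · cases b <;> cases b' <;> simp [w, wv] <;> field_simp <;> grind
    all_goals
      rw [Pi.single_eq_of_ne (by simp)]
      simp only [Pi.add_apply, Pi.sub_apply, Pi.smul_apply, smul_eq_mul, w, wv, Pi.zero_apply]
      ring
  rw [d, d]
  simp only [mulVec_add, mulVec_sub, mulVec_smul, e0, e1, e2, e3, e4]
  funext u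
  simp
  ring

end Pool.Agent.H.MP_8f05cb_co.A
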